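import Mathlib

set_option autoImplicit false

namespace Pool.Agent.H.MP_df1cff_co

/-- Short partizan game forms; player `true` is Left, `false` is Right; player `p` has `n p`
options. -/
inductive Game : Type
  | mk (n : Bool → ℕ) (o : ∀ p : Bool, Fin (n p) → Game) : Game

/-- `H` is an option of `G` for player `p`. -/
def Opt (p : Bool) : Game → Game → Prop
  | .mk _ o, H => ∃ i, o p i = H

/-- Disjunctive sum. -/
noncomputable def add (G : Game) : Game → Game :=
  Game.rec (motive := fun _ => Game → Game) (fun n _ ih H =>
    Game.rec (motive := fun _ => Game) (fun m q ih' =>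
      Game.mk (fun p => n p + m p) fun p =>
        Fin.addCases (fun i => ih p i (Game.mk m q)) fun j => ih' p j) H) G

def zero : Game := .mk (fun _ => 0) fun _ i => i.elim0

def star : Game := .mk (fun _ => 1) fun _ _ => zero

/-- Player `p` wins moving first; a player who cannot move wins iff `mis` is true. -/
def wins (mis : Bool) : Game → Bool → Bool
  | .mk n o, p => (n p == 0 && mis) || (List.finRange (n p)).any fun i => !wins mis (o p i) (!p)

/-- Outcome class, as the pair (Left wins moving first, Right wins moving first);
`out false` is `o⁺`, `out true` is `o⁻`. -/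
def out (mis : Bool) (G : Game) : Bool × Bool := (wins mis G true, wins mis G false)

/-- At every subposition both players have a move or neither does. -/
def Dicot : Game → Prop
  | .mk n o => (n true = 0 ↔ n false = 0) ∧ ∀ p i, Dicot (o p i)

/-- Identity of game forms (same sets of options, hereditarily). -/
def Ident : Game → Game → Prop
  | .mk _ o, .mk _ q => ∀ p, (∀ i, ∃ j, Ident (o p i) (q p j)) ∧ ∀ j, ∃ i, Ident (o p i) (q p j)

/-- `A` is a union of classes of identical game forms. -/
def Respects (A : Set Game) : Prop := ∀ G H, Ident G H → G ∈ A → H ∈ A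

/-- Closed under sums and subpositions. -/
def Closed (A : Set Game) : Prop :=
  (∀ G ∈ A, ∀ H ∈ A, add G H ∈ A) ∧
    ∀ G ∈ A, ∀ H, Relation.ReflTransGen (fun X Y => ∃ p, Opt p X Y) G H → H ∈ A

open Classical in
/-- `G^*`: `G` if `G ∈ K`, and `G + *` otherwise. -/
noncomputable def twin (K : Set Game) (G : Game) : Game := if G ∈ K then G else add G star

def EvilKernel (A K : Set Game) : Prop :=
  K ⊆ A ∧ ∀ G ∈ A, out false G = out true (twin K G) ∧ out true G = out false (twin K G)

/-- The condition making `(A, K)` evilly normal. -/
def NormalCond (A K : Set Game) : Prop :=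
  ∀ G ∈ A, ∀ H ∈ A, add G H ∉ K ↔ G ∉ K ∧ H ∉ K

end Pool.Agent.H.MP_df1cff_co
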