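import Pool.Agent.H.MP_df1cff_co.Defs

set_option autoImplicit false

namespace Pool.Agent.H.MP_df1cff_co

theorem ind {P : Game → Prop} (h : ∀ G, (∀ p H, Opt p G H → P H) → P G) (G : Game) : P G := by
  induction G with
  | mk n o ih => exact h _ fun p H ⟨i, e⟩ => e ▸ ih p i

theorem opt_add (p : Bool) (G H W : Game) : Opt p (add G H) W ↔
    (∃ G', Opt p G G' ∧ W = add G' H) ∨ ∃ H', Opt p H H' ∧ W = add G H' := by
  obtain ⟨n, o⟩ := G
  obtain ⟨m, q⟩ := H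
  change (∃ i : Fin (n p + m p), Fin.addCases (motive := fun _ => Game)
    (fun i => add (o p i) (Game.mk m q)) (fun j => add (Game.mk n o) (q p j)) i = W) ↔ _
  constructor
  · rintro ⟨i, rfl⟩
    induction i using Fin.addCases with
    | left i => exact Or.inl ⟨_, ⟨i, rfl⟩, by simp⟩
    | right j => exact Or.inr ⟨_, ⟨j, rfl⟩, by simp⟩
  · rintro (⟨_, ⟨i, rfl⟩, rfl⟩ | ⟨_, ⟨j, rfl⟩, rfl⟩)
    · exact ⟨Fin.castAdd _ i, by simp⟩
    · exact ⟨Fin.natAdd _ j, by simp⟩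

theorem no_opt (n : Bool → ℕ) (o : ∀ p : Bool, Fin (n p) → Game) (p : Bool) :
    (∀ W, ¬ Opt p (.mk n o) W) ↔ n p = 0 := by
  constructor
  · intro h
    by_contra h'
    exact h _ ⟨⟨0, Nat.pos_of_ne_zero h'⟩, rfl⟩
  · rintro h W ⟨i, -⟩
    have := i.2
    omega

theorem wins_iff (mis : Bool) (G : Game) (p : Bool) : wins mis G p = true ↔
    ((∀ W, ¬ Opt p G W) ∧ mis = true) ∨ ∃ W, Opt p G W ∧ ¬ wins mis W (!p) = true := by
  obtain ⟨n, o⟩ := G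
  rw [no_opt, wins]
  simp [Opt]

theorem dicot_iff (G : Game) : Dicot G ↔
    ((∀ W, ¬ Opt true G W) ↔ ∀ W, ¬ Opt false G W) ∧ ∀ p W, Opt p G W → Dicot W := by
  obtain ⟨n, o⟩ := G
  rw [no_opt, no_opt, Dicot]
  simp [Opt]

theorem wins_ident (mis : Bool) (G : Game) : ∀ H, Ident G H → ∀ p, wins mis G p = wins mis H p := by
  induction G with
  | mk n o ih =>
  rintro ⟨m, q⟩ h p
  rw [Bool.eq_iff_iff, wins_iff, wins_iff]
  constructor
  · rintro (⟨h1, h2⟩ | ⟨_, ⟨i, rfl⟩, h2⟩)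
    · refine Or.inl ⟨?_, h2⟩
      rintro _ ⟨j, rfl⟩
      obtain ⟨i, -⟩ := (h p).2 j
      exact h1 _ ⟨i, rfl⟩
    · obtain ⟨j, hj⟩ := (h p).1 i
      exact Or.inr ⟨_, ⟨j, rfl⟩, by rw [← ih p i _ hj]; exact h2⟩
  · rintro (⟨h1, h2⟩ | ⟨_, ⟨j, rfl⟩, h2⟩)
    · refine Or.inl ⟨?_, h2⟩
      rintro _ ⟨i, rfl⟩
      obtain ⟨j, -⟩ := (h p).1 i
      exact h1 _ ⟨j, rfl⟩
    · obtain ⟨i, hi⟩ := (h p).2 j
      exact Or.inr ⟨_, ⟨i, rfl⟩, by rw [ih p i _ hi]; exact h2⟩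

/-- multiplicities of `*`, `{0|0,*}`, `{0,*|0}`, `*2`, `{0,*2|0,{0|0,*},{0,*|0}}` -/
abbrev V := Fin 5 → ℕ

def ops : Bool → Fin 5 → List V
  | true => ![[0], [0], [0, ![1, 0, 0, 0, 0]], [0, ![1, 0, 0, 0, 0]], [0, ![0, 0, 0, 1, 0]]]
  | false => ![[0], [0, ![1, 0, 0, 0, 0]], [0], [0, ![1, 0, 0, 0, 0]],
      [0, ![0, 1, 0, 0, 0], ![0, 0, 1, 0, 0]]]

def Mv (p : Bool) (v u : V) : Prop :=
  ∃ i, 0 < v i ∧ ∃ o ∈ ops p i, u = v - Pi.single i 1 + o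

theorem mv_add (p : Bool) (s t u : V) : Mv p (s + t) u ↔
    (∃ s', Mv p s s' ∧ u = s' + t) ∨ ∃ t', Mv p t t' ∧ u = s + t' := by
  have key : ∀ (s t o : V) (i : Fin 5), 0 < s i →
      s + t - Pi.single i 1 + o = s - Pi.single i 1 + o + t := by
    intro s t o i h
    funext j
    by_cases e : j = i
    · subst e; simp; omega
    · simp [Pi.single_eq_of_ne e]; omega
  constructor
  · rintro ⟨i, hi, o, ho, rfl⟩
    by_cases h : 0 < s i
    · exact Or.inl ⟨_, ⟨i, h, o, ho, rfl⟩, key s t o i h⟩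
    · have h' : 0 < t i := by simp only [Pi.add_apply] at hi; omega
      exact Or.inr ⟨_, ⟨i, h', o, ho, rfl⟩, by rw [add_comm s t, key t s o i h', add_comm]⟩
  · rintro (⟨_, ⟨i, h, o, ho, rfl⟩, rfl⟩ | ⟨_, ⟨i, h, o, ho, rfl⟩, rfl⟩)
    · exact ⟨i, by simp only [Pi.add_apply]; omega, o, ho, (key s t o i h).symm⟩
    · exact ⟨i, by simp only [Pi.add_apply]; omega, o, ho,
        by rw [add_comm s t, key t s o i h, add_comm]⟩

theorem mv_ex (p : Bool) (s : V) : (∃ t, Mv p s t) ↔ ∃ i, 0 < s i := by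
  constructor
  · rintro ⟨_, i, h, -⟩
    exact ⟨i, h⟩
  · rintro ⟨i, h⟩
    exact ⟨_, i, h, 0, by cases p <;> fin_cases i <;> simp [ops], rfl⟩

def Is : Game → V → Prop
  | .mk _ o, s => ∀ p, (∀ i, ∃ t, Mv p s t ∧ Is (o p i) t) ∧ ∀ t, Mv p s t → ∃ i, Is (o p i) t

theorem is_iff (G : Game) (s : V) : Is G s ↔ ∀ p,
    (∀ W, Opt p G W → ∃ t, Mv p s t ∧ Is W t) ∧ ∀ t, Mv p s t → ∃ W, Opt p G W ∧ Is W t := by
  obtain ⟨n, o⟩ := G
  simp [Is, Opt]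

theorem is_add (G : Game) : ∀ s, Is G s → ∀ H t, Is H t → Is (add G H) (s + t) := by
  induction G using ind with
  | h G ihG =>
  intro s hs H
  induction H using ind with
  | h H ihH =>
  intro t ht
  have hs' := (is_iff _ _).1 hs
  have ht' := (is_iff _ _).1 ht
  rw [is_iff]
  refine fun p => ⟨fun W hW => ?_, fun u hu => ?_⟩
  · rcases (opt_add _ _ _ _).1 hW with ⟨Y, h, rfl⟩ | ⟨Y, h, rfl⟩
    · obtain ⟨s', h1, h2⟩ := (hs' p).1 Y h
      exact ⟨_, (mv_add _ _ _ _).2 (Or.inl ⟨s', h1, rfl⟩), ihG p Y h s' h2 H t ht⟩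
    · obtain ⟨t', h1, h2⟩ := (ht' p).1 Y h
      exact ⟨_, (mv_add _ _ _ _).2 (Or.inr ⟨t', h1, rfl⟩), ihH p Y h t' h2⟩
  · rcases (mv_add _ _ _ _).1 hu with ⟨s', h, rfl⟩ | ⟨t', h, rfl⟩
    · obtain ⟨Y, h1, h2⟩ := (hs' p).2 s' h
      exact ⟨_, (opt_add _ _ _ _).2 (Or.inl ⟨Y, h1, rfl⟩), ihG p Y h1 s' h2 H t ht⟩
    · obtain ⟨Y, h1, h2⟩ := (ht' p).2 t' h
      exact ⟨_, (opt_add _ _ _ _).2 (Or.inr ⟨Y, h1, rfl⟩), ihH p Y h1 t' h2⟩

theorem is_ident (G : Game) : ∀ H s, Ident G H → Is G s → Is H s := by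
  induction G with
  | mk n o ih =>
  rintro ⟨m, q⟩ s h hs p
  refine ⟨fun j => ?_, fun t ht => ?_⟩
  · obtain ⟨i, hi⟩ := (h p).2 j
    obtain ⟨t, h1, h2⟩ := (hs p).1 i
    exact ⟨t, h1, ih p i _ t hi h2⟩
  · obtain ⟨i, hi⟩ := (hs p).2 t ht
    obtain ⟨j, hj⟩ := (h p).1 i
    exact ⟨j, ih p i _ t hj hi⟩

theorem is_noopt {G : Game} {s : V} (h : Is G s) (p : Bool) :
    (∀ W, ¬ Opt p G W) ↔ ¬ ∃ i, 0 < s i := by
  rw [← mv_ex p]
  have h' := (is_iff _ _).1 h p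
  constructor
  · rintro h1 ⟨t, ht⟩
    obtain ⟨W, hW, -⟩ := h'.2 t ht
    exact h1 W hW
  · intro h1 W hW
    obtain ⟨t, ht, -⟩ := h'.1 W hW
    exact h1 ⟨t, ht⟩

theorem is_dicot (G : Game) : ∀ s, Is G s → Dicot G := by
  induction G using ind with
  | h G ih =>
  intro s hs
  rw [dicot_iff, is_noopt hs, is_noopt hs]
  refine ⟨Iff.rfl, fun p W hW => ?_⟩
  obtain ⟨t, -, ht⟩ := ((is_iff _ _).1 hs p).1 W hW
  exact ih p W hW t ht

/-- `e` parity of the number of stars, `T` class of the number of `*2`, `g` clipped number of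
copies of the big game, `D` the balance -/
def FN (p : Bool) (e T g : ℕ) (D : ℤ) : Prop :=
  (p = true ∧ g = 0 ∧ T ≠ 1 ∧ (1 ≤ D ∨ (D = 0 ∧ e = 1) ∨ (D = -1 ∧ e = 0))) ∨
  (p = true ∧ g = 0 ∧ T = 1 ∧ 0 ≤ D) ∨
  (p = true ∧ 1 ≤ g ∧ (0 ≤ D ∨ (D = -1 ∧ e = 0))) ∨
  (p = false ∧ g = 0 ∧ T ≠ 1 ∧ (D ≤ -1 ∨ (D = 0 ∧ e = 1) ∨ (D = 1 ∧ e = 0))) ∨
  (p = false ∧ g = 0 ∧ T = 1 ∧ D ≤ 0) ∨
  (p = false ∧ 1 ≤ g ∧ (D ≤ -1 ∨ (D = 0 ∧ (e = 1 ∨ (g = 1 ∧ T ≠ 1)))))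

instance (p : Bool) (e T g : ℕ) (D : ℤ) : Decidable (FN p e T g D) := by
  unfold FN; infer_instance

def F (mis p : Bool) (e T g : ℕ) (D : ℤ) : Prop :=
  FN p (if mis = true ∧ T = 0 ∧ g ≤ 1 then 1 - e else e) T g D

instance (mis p : Bool) (e T g : ℕ) (D : ℤ) : Decidable (F mis p e T g D) := by
  unfold F; infer_instance

theorem F_clip (mis p : Bool) (e T g : ℕ) (D C : ℤ)
    (h : D = C ∨ (D ≤ -2 ∧ C ≤ -2) ∨ (2 ≤ D ∧ 2 ≤ C)) : F mis p e T g D ↔ F mis p e T g C := by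
  rcases h with rfl | h | h
  · rfl
  · unfold F FN
    have h1 : ¬ 1 ≤ D := by omega
    have h2 : ¬ 0 ≤ D := by omega
    have h3 : ¬ D = 0 := by omega
    have h4 : ¬ D = -1 := by omega
    have h5 : D ≤ -1 := by omega
    have h6 : D ≤ 0 := by omega
    have k1 : ¬ 1 ≤ C := by omega
    have k2 : ¬ 0 ≤ C := by omega
    have k3 : ¬ C = 0 := by omega
    have k4 : ¬ C = -1 := by omega
    have k5 : C ≤ -1 := by omega
    have k6 : C ≤ 0 := by omega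
    simp only [h1, h2, h3, h4, h5, h6, k1, k2, k3, k4, k5, k6, true_or]
  · unfold F FN
    have h1 : 1 ≤ D := by omega
    have h2 : 0 ≤ D := by omega
    have h3 : ¬ D = 0 := by omega
    have h4 : ¬ D = 1 := by omega
    have h5 : ¬ D ≤ -1 := by omega
    have h6 : ¬ D ≤ 0 := by omega
    have k1 : 1 ≤ C := by omega
    have k2 : 0 ≤ C := by omega
    have k3 : ¬ C = 0 := by omega
    have k4 : ¬ C = 1 := by omega
    have k5 : ¬ C ≤ -1 := by omega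
    have k6 : ¬ C ≤ 0 := by omega
    simp only [h1, h2, h3, h4, h5, h6, k1, k2, k3, k4, k5, k6, true_or]

def TT (t : ℕ) : ℕ := if t = 0 then 0 else if t % 2 = 1 then 1 else 2

def RL (mis : Bool) (s a b t g : ℕ) (D : ℤ) : Prop :=
  F mis true (s % 2) (TT t) (min g 2) D ↔
    (s = 0 ∧ a = 0 ∧ b = 0 ∧ t = 0 ∧ g = 0 ∧ mis = true) ∨
    (0 < s ∧ ¬ F mis false (1 - s % 2) (TT t) (min g 2) D) ∨
    (0 < a ∧ ¬ F mis false (s % 2) (TT t) (min g 2) (D + 1)) ∨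
    (0 < b ∧ (¬ F mis false (s % 2) (TT t) (min g 2) (D - 1) ∨
      ¬ F mis false (1 - s % 2) (TT t) (min g 2) (D - 1))) ∨
    (0 < t ∧ (¬ F mis false (s % 2) (TT (t - 1)) (min g 2) D ∨
      ¬ F mis false (1 - s % 2) (TT (t - 1)) (min g 2) D)) ∨
    (0 < g ∧ (¬ F mis false (s % 2) (TT t) (min (g - 1) 2) (D + 1) ∨
      ¬ F mis false (s % 2) (TT (t + 1)) (min (g - 1) 2) (D + 1)))

def RR (mis : Bool) (s a b t g : ℕ) (D : ℤ) : Prop :=
  F mis false (s % 2) (TT t) (min g 2) D ↔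
    (s = 0 ∧ a = 0 ∧ b = 0 ∧ t = 0 ∧ g = 0 ∧ mis = true) ∨
    (0 < s ∧ ¬ F mis true (1 - s % 2) (TT t) (min g 2) D) ∨
    (0 < a ∧ (¬ F mis true (s % 2) (TT t) (min g 2) (D + 1) ∨
      ¬ F mis true (1 - s % 2) (TT t) (min g 2) (D + 1))) ∨
    (0 < b ∧ ¬ F mis true (s % 2) (TT t) (min g 2) (D - 1)) ∨
    (0 < t ∧ (¬ F mis true (s % 2) (TT (t - 1)) (min g 2) D ∨
      ¬ F mis true (1 - s % 2) (TT (t - 1)) (min g 2) D)) ∨
    (0 < g ∧ (¬ F mis true (s % 2) (TT t) (min (g - 1) 2) (D + 1) ∨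
      ¬ F mis true (s % 2) (TT t) (min (g - 1) 2) D ∨
      ¬ F mis true (s % 2) (TT t) (min (g - 1) 2) (D + 2)))

instance (mis : Bool) (s a b t g : ℕ) (D : ℤ) : Decidable (RL mis s a b t g D) := by
  unfold RL; infer_instance

instance (mis : Bool) (s a b t g : ℕ) (D : ℤ) : Decidable (RR mis s a b t g D) := by
  unfold RR; infer_instance

def FP (mis : Bool) (s a b t g c : ℕ) : Prop :=
  (b = 0 → c + g + a ≤ 4) → (a = 0 → g ≤ 2 → 4 + b ≤ c + g) →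
    RL mis s a b t g ((c : ℕ) - 4 : ℤ) ∧ RR mis s a b t g ((c : ℕ) - 4 : ℤ)

instance (mis : Bool) (s a b t g c : ℕ) : Decidable (FP mis s a b t g c) := by
  unfold FP; infer_instance

theorem fin : ∀ mis : Bool, ∀ s < 3, ∀ a < 2, ∀ b < 2, ∀ t < 4, ∀ g < 4, ∀ c < 9,
    FP mis s a b t g c := by
  decide +kernel

theorem gen (mis : Bool) (s a b t g : ℕ) (D : ℤ) (hD : D = (b : ℤ) - a - g) :
    RL mis s a b t g D ∧ RR mis s a b t g D := by
  obtain ⟨s', h1, h2, h3⟩ : ∃ s' < 3, s' % 2 = s % 2 ∧ (s' = 0 ↔ s = 0) :=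
    ⟨if s = 0 then 0 else 2 - s % 2, by split_ifs <;> omega⟩
  obtain ⟨t', k1, k2, k3, k4⟩ : ∃ t' < 4, t' % 2 = t % 2 ∧ (t' = 0 ↔ t = 0) ∧ (t' = 1 ↔ t = 1) :=
    ⟨if t ≤ 1 then t else 2 + t % 2, by split_ifs <;> omega⟩
  obtain ⟨c, c1, c2⟩ : ∃ c : ℕ, c < 9 ∧ ((c : ℤ) - 4 = D ∨ (D ≤ -4 ∧ c = 0) ∨ (4 ≤ D ∧ c = 8)) := by
    by_cases u1 : D ≤ -4
    · exact ⟨0, by omega⟩
    by_cases u2 : 4 ≤ D
    · exact ⟨8, by omega⟩
    exact ⟨(D + 4).toNat, by omega⟩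
  have f0 := fun p e T G => F_clip mis p e T G ((c : ℤ) - 4) D (by omega)
  have f1 := fun p e T G => F_clip mis p e T G ((c : ℤ) - 4 + 1) (D + 1) (by omega)
  have f2 := fun p e T G => F_clip mis p e T G ((c : ℤ) - 4 + 2) (D + 2) (by omega)
  have f3 := fun p e T G => F_clip mis p e T G ((c : ℤ) - 4 - 1) (D - 1) (by omega)
  have H := fin mis s' h1 (min a 1) (by omega) (min b 1) (by omega) t' k1 (min g 3) (by omega)
    c c1 (by omega) (by omega)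
  clear c2 hD
  have e1 : TT t' = TT t := by unfold TT; split_ifs <;> omega
  have e2 : TT (t' - 1) = TT (t - 1) := by unfold TT; split_ifs <;> omega
  have e3 : TT (t' + 1) = TT (t + 1) := by unfold TT; split_ifs <;> omega
  have e4 : min (min g 3) 2 = min g 2 := by omega
  have e5 : min (min g 3 - 1) 2 = min (g - 1) 2 := by omega
  have p1 : 0 < s' ↔ 0 < s := by omega
  have p2 : 0 < t' ↔ 0 < t := by omega
  have p3 : 0 < min a 1 ↔ 0 < a := by omega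
  have p4 : 0 < min b 1 ↔ 0 < b := by omega
  have p5 : 0 < min g 3 ↔ 0 < g := by omega
  have q3 : min a 1 = 0 ↔ a = 0 := by omega
  have q4 : min b 1 = 0 ↔ b = 0 := by omega
  have q5 : min g 3 = 0 ↔ g = 0 := by omega
  unfold RL RR at H ⊢
  simp only [e1, e2, e3, e4, e5, p1, p2, p3, p4, p5, q3, q4, q5, h2, h3, k3, f0, f1, f2, f3] at H
  exact H

def W5 (mis p : Bool) (s a b t g : ℕ) : Prop :=
  F mis p (s % 2) (TT t) (min g 2) ((b : ℤ) - a - g)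

def W (mis : Bool) (v : V) (p : Bool) : Prop := W5 mis p (v 0) (v 1) (v 2) (v 3) (v 4)

theorem W_iff (mis : Bool) (v : V) (p : Bool) :
    W mis v p ↔ ((¬ ∃ i, 0 < v i) ∧ mis = true) ∨ ∃ u, Mv p v u ∧ ¬ W mis u (!p) := by
  obtain ⟨s, a, b, t, g, rfl⟩ : ∃ s a b t g, v = ![s, a, b, t, g] :=
    ⟨v 0, v 1, v 2, v 3, v 4, by funext i; fin_cases i <;> rfl⟩
  have H := gen mis s a b t g _ rfl
  have m1 : 0 < s → (s - 1) % 2 = 1 - s % 2 := by omega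
  have m2 : (s + 1) % 2 = 1 - s % 2 := by omega
  have d1 : 0 < a → (b : ℤ) - (a - 1 : ℕ) - g = (b : ℤ) - a - g + 1 := by omega
  have d2 : 0 < b → ((b - 1 : ℕ) : ℤ) - a - g = (b : ℤ) - a - g - 1 := by omega
  have d3 : 0 < g → (b : ℤ) - a - (g - 1 : ℕ) = (b : ℤ) - a - g + 1 := by omega
  have d4 : 0 < g → (b : ℤ) - (a + 1) - (g - 1 : ℕ) = (b : ℤ) - a - g := by omega
  have d5 : 0 < g → (b : ℤ) + 1 - a - (g - 1 : ℕ) = (b : ℤ) - a - g + 2 := by omega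
  have z : (¬ ∃ i, 0 < ![s, a, b, t, g] i) ↔ s = 0 ∧ a = 0 ∧ b = 0 ∧ t = 0 ∧ g = 0 := by
    simp [Fin.exists_fin_succ]
  have v0 : ∀ o : V, ![s, a, b, t, g] - Pi.single 0 1 + o = ![s - 1, a, b, t, g] + o := by
    intro o; congr 1; funext i; fin_cases i <;> simp
  have v1 : ∀ o : V, ![s, a, b, t, g] - Pi.single 1 1 + o = ![s, a - 1, b, t, g] + o := by
    intro o; congr 1; funext i; fin_cases i <;> simp
  have v2 : ∀ o : V, ![s, a, b, t, g] - Pi.single 2 1 + o = ![s, a, b - 1, t, g] + o := by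
    intro o; congr 1; funext i; fin_cases i <;> simp
  have v3 : ∀ o : V, ![s, a, b, t, g] - Pi.single 3 1 + o = ![s, a, b, t - 1, g] + o := by
    intro o; congr 1; funext i; fin_cases i <;> simp
  have v4 : ∀ o : V, ![s, a, b, t, g] - Pi.single 4 1 + o = ![s, a, b, t, g - 1] + o := by
    intro o; congr 1; funext i; fin_cases i <;> simp
  have ex : ∀ P : Fin 5 → Prop, (∃ i, P i) ↔ P 0 ∨ P 1 ∨ P 2 ∨ P 3 ∨ P 4 := by
    intro P; simp [Fin.exists_fin_succ]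
  have sw : (∃ u, Mv p ![s, a, b, t, g] u ∧ ¬ W mis u (!p)) ↔ ∃ i, 0 < ![s, a, b, t, g] i ∧
      ∃ o ∈ ops p i, ¬ W mis (![s, a, b, t, g] - Pi.single i 1 + o) (!p) := by
    constructor
    · rintro ⟨_, ⟨i, h, o, ho, rfl⟩, h'⟩
      exact ⟨i, h, o, ho, h'⟩
    · rintro ⟨i, h, o, ho, h'⟩
      exact ⟨_, ⟨i, h, o, ho, rfl⟩, h'⟩
  rw [z, sw, ex, and_assoc, and_assoc, and_assoc, and_assoc]
  simp only [v0, v1, v2, v3, v4]
  cases p
  · refine H.2.trans (or_congr Iff.rfl (or_congr (and_congr_right fun h => ?_)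
      (or_congr (and_congr_right fun h => ?_) (or_congr (and_congr_right fun h => ?_)
      (or_congr (and_congr_right fun h => ?_) (and_congr_right fun h => ?_))))))
    · simp [ops, W, W5, m1 h]
    · simp [ops, W, W5, m2, d1 h]
    · simp [ops, W, W5, d2 h]
    · simp [ops, W, W5, m2]
    · simp [ops, W, W5, d3 h, d4 h, d5 h]
  · refine H.1.trans (or_congr Iff.rfl (or_congr (and_congr_right fun h => ?_)
      (or_congr (and_congr_right fun h => ?_) (or_congr (and_congr_right fun h => ?_)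
      (or_congr (and_congr_right fun h => ?_) (and_congr_right fun h => ?_))))))
    · simp [ops, W, W5, m1 h]
    · simp [ops, W, W5, d1 h]
    · simp [ops, W, W5, m2, d2 h]
    · simp [ops, W, W5, m2]
    · simp [ops, W, W5, d3 h]

theorem wins_W (mis : Bool) (G : Game) : ∀ v, Is G v → ∀ p, wins mis G p = true ↔ W mis v p := by
  induction G using ind with
  | h G ih =>
  intro v hv p
  rw [wins_iff, W_iff, is_noopt hv]
  refine or_congr Iff.rfl ⟨?_, ?_⟩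
  · rintro ⟨Y, h1, h2⟩
    obtain ⟨u, h3, h4⟩ := ((is_iff _ _).1 hv p).1 Y h1
    exact ⟨u, h3, (ih p Y h1 u h4 _).not.1 h2⟩
  · rintro ⟨u, h1, h2⟩
    obtain ⟨Y, h3, h4⟩ := ((is_iff _ _).1 hv p).2 u h1
    exact ⟨Y, h3, (ih p Y h3 u h4 _).not.2 h2⟩

def mkL (L R : List Game) : Game :=
  .mk (fun p => (bif p then L else R).length) fun p i => (bif p then L else R).get i

theorem opt_mkL (L R : List Game) (p : Bool) (Y : Game) :
    Opt p (mkL L R) Y ↔ Y ∈ (bif p then L else R) := by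
  simp only [mkL, Opt]
  exact List.mem_iff_get.symm

theorem is_unit (G : Game) (i : Fin 5)
    (h : ∀ p, (∀ Y, Opt p G Y → ∃ o ∈ ops p i, Is Y o) ∧ ∀ o ∈ ops p i, ∃ Y, Opt p G Y ∧ Is Y o) :
    Is G (Pi.single i 1) := by
  have hm : ∀ p u, Mv p (Pi.single i 1) u ↔ u ∈ ops p i := by
    intro p u
    constructor
    · rintro ⟨j, hj, o, ho, rfl⟩
      have : j = i := by
        by_contra e
        simp [Pi.single_eq_of_ne e] at hj
      subst this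
      simpa using ho
    · intro hu
      exact ⟨i, by simp, u, hu, by simp⟩
  rw [is_iff]
  simpa only [hm] using h

theorem is_zero : Is zero 0 := by
  intro p
  refine ⟨fun i => i.elim0, ?_⟩
  rintro t ⟨i, h, -⟩
  simp at h

theorem sg0 : (![1, 0, 0, 0, 0] : V) = Pi.single 0 1 := by funext i; fin_cases i <;> simp
theorem sg1 : (![0, 1, 0, 0, 0] : V) = Pi.single 1 1 := by funext i; fin_cases i <;> simp
theorem sg2 : (![0, 0, 1, 0, 0] : V) = Pi.single 2 1 := by funext i; fin_cases i <;> simp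
theorem sg3 : (![0, 0, 0, 1, 0] : V) = Pi.single 3 1 := by funext i; fin_cases i <;> simp
theorem sg4 : (![0, 0, 0, 0, 1] : V) = Pi.single 4 1 := by funext i; fin_cases i <;> simp

theorem is_star : Is star ![1, 0, 0, 0, 0] := by
  rw [sg0]
  refine is_unit _ _ fun p => ?_
  cases p <;> simp [Opt, star, ops, is_zero]

def dn : Game := mkL [zero] [zero, star]
def up : Game := mkL [zero, star] [zero]
def s2 : Game := mkL [zero, star] [zero, star]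
def gg : Game := mkL [zero, s2] [zero, dn, up]

theorem is_dn : Is dn ![0, 1, 0, 0, 0] := by
  rw [sg1]
  refine is_unit _ _ fun p => ?_
  cases p <;> simp [dn, opt_mkL, ops, is_zero, is_star]

theorem is_up : Is up ![0, 0, 1, 0, 0] := by
  rw [sg2]
  refine is_unit _ _ fun p => ?_
  cases p <;> simp [up, opt_mkL, ops, is_zero, is_star]

theorem is_s2 : Is s2 ![0, 0, 0, 1, 0] := by
  rw [sg3]
  refine is_unit _ _ fun p => ?_
  cases p <;> simp [s2, opt_mkL, ops, is_zero, is_star]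

theorem is_gg : Is gg ![0, 0, 0, 0, 1] := by
  rw [sg4]
  refine is_unit _ _ fun p => ?_
  cases p <;> simp [gg, opt_mkL, ops, is_zero, is_s2, is_dn, is_up]

def AA : Set Game := {G | ∃ v, Is G v}

theorem out_eq {G H : Game} {u v : V} (hG : Is G u) (hH : Is H v) (m m' : Bool) :
    out m G = out m' H ↔ (W m u true ↔ W m' v true) ∧ (W m u false ↔ W m' v false) := by
  simp only [out, Prod.mk.injEq]
  rw [Bool.eq_iff_iff, Bool.eq_iff_iff (a := wins m G false), wins_W m G u hG, wins_W m G u hG,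
    wins_W m' H v hH, wins_W m' H v hH]

theorem flip (v : V) (h : ¬ ((W false v true ↔ W true v true) ∧ (W false v false ↔ W true v false)))
    (p : Bool) : (W false v p ↔ W true (v + ![1, 0, 0, 0, 0]) p) ∧
      (W true v p ↔ W false (v + ![1, 0, 0, 0, 0]) p) := by
  have m2 : (v 0 + 1) % 2 = 1 - v 0 % 2 := by omega
  have m3 : 1 - (1 - v 0 % 2) = v 0 % 2 := by omega
  by_cases hc : TT (v 3) = 0 ∧ min (v 4) 2 ≤ 1
  · simp [W, W5, F, hc.1, hc.2, m2, m3]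
  · exact absurd (by simp only [W, W5, F, hc, and_false, if_false, and_self]) h

theorem main : ∃ A : Set Game, (∀ G ∈ A, Dicot G) ∧ Closed A ∧ star ∈ A ∧ Respects A ∧
    (∃ K, Respects K ∧ EvilKernel A K) ∧ ∀ K, EvilKernel A K → ¬ NormalCond A K := by
  refine ⟨AA, fun G ⟨v, hv⟩ => is_dicot G v hv, ⟨?_, ?_⟩, ⟨_, is_star⟩,
    fun G H h ⟨v, hv⟩ => ⟨v, is_ident G H v h hv⟩,
    ⟨{G | G ∈ AA ∧ out false G = out true G}, ?_, fun G h => h.1, ?_⟩, ?_⟩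
  · rintro G ⟨u, hu⟩ H ⟨v, hv⟩
    exact ⟨_, is_add G u hu H v hv⟩
  · intro G hG H h
    induction h with
    | refl => exact hG
    | tail _ h ih =>
      obtain ⟨p, h⟩ := h
      obtain ⟨v, hv⟩ := ih
      obtain ⟨u, -, hu⟩ := ((is_iff _ _).1 hv p).1 _ h
      exact ⟨u, hu⟩
  · rintro G H h ⟨⟨v, hv⟩, e⟩
    refine ⟨⟨v, is_ident G H v h hv⟩, ?_⟩
    simpa only [out, wins_ident _ G H h] using e
  · rintro G ⟨v, hv⟩
    unfold twin
    split_ifs with h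
    · exact ⟨h.2, h.2.symm⟩
    · have h1 : ¬ out false G = out true G := fun e => h ⟨⟨v, hv⟩, e⟩
      rw [out_eq hv hv] at h1
      have h2 := is_add G v hv star _ is_star
      rw [out_eq hv h2, out_eq hv h2]
      exact ⟨⟨(flip v h1 true).1, (flip v h1 false).1⟩, (flip v h1 true).2, (flip v h1 false).2⟩
  · intro K hK hN
    have nk : ∀ G v, Is G v → ¬ ((W false v true ↔ W true v true) ∧
        (W false v false ↔ W true v false)) → G ∉ K := by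
      intro G v hv h hG
      have := (hK.2 G ⟨v, hv⟩).1
      rw [twin, if_pos hG, out_eq hv hv] at this
      exact h this
    have h1 : gg ∉ K := nk _ _ is_gg (by simp [W, W5, F, FN, TT])
    have h2 : up ∉ K := nk _ _ is_up (by simp [W, W5, F, FN, TT])
    have i1 := is_add _ _ is_gg _ _ is_gg
    have i2 := is_add _ _ i1 _ _ is_up
    have h3 := (hN _ ⟨_, is_gg⟩ _ ⟨_, is_gg⟩).2 ⟨h1, h1⟩
    have h4 := (hN _ ⟨_, i1⟩ _ ⟨_, is_up⟩).2 ⟨h3, h2⟩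
    have h5 := (hK.2 _ ⟨_, i2⟩).1
    rw [twin, if_neg h4, out_eq i2 (is_add _ _ i2 _ _ is_star)] at h5
    revert h5
    simp [W, W5, F, FN, TT]

end Pool.Agent.H.MP_df1cff_co
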